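import Pool.Agent.AT3.Stmts3
import Pool.Agent.Helper94_PP.Nch
import Pool.Agent.Helper75_PP.Cen
import Pool.Agent.Helper75_PP.Quo
import Pool.Agent.Helper75_PP.Transport
import Pool.Agent.Helper75_K9.LBR

/-!
# Squad AT3, row REC: the recursion for the alternating sum
-/

open scoped BigOperators

set_option linter.unusedSectionVars false

noncomputable section

namespace Pool.Agent.PP.T3.H28

open Pool.Agent.Helper51_AWC Pool.Agent.Helper79_WRA Pool.Agent.PP Pool.Agent.PP.KF
open Pool.Agent.PP.K9 Pool.Agent.PP.K9.H97 Pool.Agent.PP.H75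
open Pool.Agent.PP.H94

/-! ### preimages of subgroups (as in `Helper35_K9.CHQ`) -/

section up0

variable {F : Type} [Field F] {G A : Type} [Group G] [Finite G] [Group A] [Finite A]
  {N : Subgroup G}

/-- the preimage in `G` -/
def up (p : N →* A) (T : Subgroup A) : Subgroup G := (T.comap p).map N.subtype

theorem mem_up {p : N →* A} {T : Subgroup A} {x : G} :
    x ∈ up p T ↔ ∃ h : x ∈ N, p ⟨x, h⟩ ∈ T := by
  constructor
  · rintro ⟨y, hy, rfl⟩
    exact ⟨y.2, hy⟩
  · rintro ⟨h, hx⟩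
    exact ⟨⟨x, h⟩, hx, rfl⟩

theorem card_up {p : N →* A} (hp : Function.Surjective p) (T : Subgroup A) :
    Nat.card (up p T) = Nat.card p.ker * Nat.card T := by
  rw [up, Subgroup.card_map_of_injective N.subtype_injective, PP.H75.card_comap hp]

theorem up_le (p : N →* A) (T : Subgroup A) : up p T ≤ N := by
  rintro _ ⟨y, _, rfl⟩
  exact y.2

theorem up_subgroupOf (p : N →* A) (T : Subgroup A) : (up p T).subgroupOf N = T.comap p :=
  Subgroup.comap_map_eq_self_of_injective N.subtype_injective _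

theorem mem_norm_sub {X V : Subgroup G} (hV : V ≤ X) (x : X) :
    x ∈ Subgroup.normalizer ((V.subgroupOf X : Subgroup X) : Set X) ↔
      (x : G) ∈ Subgroup.normalizer (V : Set G) := by
  rw [Subgroup.mem_normalizer_iff, Subgroup.mem_normalizer_iff]
  constructor
  · intro h y
    constructor
    · intro hy
      have h1 := (h ⟨y, hV hy⟩).1 (Subgroup.mem_subgroupOf.2 hy)
      exact Subgroup.mem_subgroupOf.1 h1
    · intro hy
      have h0 : y ∈ X := by
        have h2 := mul_mem (mul_mem (inv_mem x.2) (hV hy)) x.2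
        have h3 : (x : G)⁻¹ * ((x : G) * y * (x : G)⁻¹) * (x : G) = y := by group
        rwa [h3] at h2
      have h1 := (h ⟨y, h0⟩).2 (Subgroup.mem_subgroupOf.2 hy)
      exact Subgroup.mem_subgroupOf.1 h1
  · intro h y
    rw [Subgroup.mem_subgroupOf, Subgroup.mem_subgroupOf]
    exact h (y : G)

theorem up_norm {p : N →* A} (hp : Function.Surjective p) (T : Subgroup A) :
    up p (Subgroup.normalizer (T : Set A)) = N ⊓ Subgroup.normalizer ((up p T : Subgroup G) : Set G) := by
  ext x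
  rw [mem_up, Subgroup.mem_inf]
  constructor
  · rintro ⟨h, hx⟩
    refine ⟨h, ?_⟩
    rw [← PP.H75.normalizer_comap hp T ⟨x, h⟩, ← up_subgroupOf] at hx
    exact (mem_norm_sub (up_le p T) ⟨x, h⟩).1 hx
  · rintro ⟨h, hx⟩
    refine ⟨h, ?_⟩
    rw [← PP.H75.normalizer_comap hp T ⟨x, h⟩, ← up_subgroupOf]
    exact (mem_norm_sub (up_le p T) ⟨x, h⟩).2 hx

theorem lnum_up {ℓ : ℕ} (hF : GoodF ℓ F) {p : N →* A} (hp : Function.Surjective p)
    (hk : IsPGroup ℓ p.ker) (T : Subgroup A) (a : G → F) :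
    lnum (up p T) a = lnum T (PP.H75.push p (fun t : N => a t)) := by
  rw [up, PP.H75.lnum_map _ N.subtype_injective, ← PP.H75.lnum_comap H20.nls hF hp hk]
  rfl

end up0

section up

variable {F : Type} [Field F] {G A : Type} [Group G] [Finite G] [Group A] [Finite A]
  {Q : Subgroup G} {p : Subgroup.normalizer (Q : Set G) →* A}

theorem up_mono (p : Subgroup.normalizer (Q : Set G) →* A) {S T : Subgroup A} (h : S ≤ T) :
    up p S ≤ up p T := by
  intro x hx
  obtain ⟨a, b⟩ := mem_up.1 hx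
  exact mem_up.2 ⟨a, h b⟩

theorem up_le_iff (hp : Function.Surjective p) {S T : Subgroup A} :
    up p S ≤ up p T ↔ S ≤ T := by
  refine ⟨fun h a ha => ?_, up_mono p⟩
  obtain ⟨x, rfl⟩ := hp a
  obtain ⟨h1, h2⟩ := mem_up.1 (h (mem_up.2 ⟨x.2, ha⟩))
  exact h2

theorem up_inj (hp : Function.Surjective p) : Function.Injective (up p) := fun S T h =>
  le_antisymm ((up_le_iff hp).1 h.le) ((up_le_iff hp).1 h.ge)

theorem up_bot (hk : p.ker = Q.subgroupOf (Subgroup.normalizer (Q : Set G))) :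
    up p ⊥ = Q := by
  ext x
  rw [mem_up]
  constructor
  · rintro ⟨h, hx⟩
    rw [Subgroup.mem_bot, ← MonoidHom.mem_ker, hk] at hx
    exact hx
  · intro hx
    refine ⟨Subgroup.le_normalizer hx, ?_⟩
    rw [Subgroup.mem_bot, ← MonoidHom.mem_ker, hk]
    exact hx

theorem le_up (hk : p.ker = Q.subgroupOf (Subgroup.normalizer (Q : Set G))) (T : Subgroup A) :
    Q ≤ up p T := by
  have h := up_mono p (bot_le : (⊥ : Subgroup A) ≤ T)
  rwa [up_bot hk] at h

theorem up_down (hp : Function.Surjective p)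
    (hk : p.ker = Q.subgroupOf (Subgroup.normalizer (Q : Set G))) {W : Subgroup G} (hQW : Q ≤ W)
    (hW : W ≤ Subgroup.normalizer (Q : Set G)) :
    up p ((W.subgroupOf (Subgroup.normalizer (Q : Set G))).map p) = W := by
  have hcm : ((W.subgroupOf (Subgroup.normalizer (Q : Set G))).map p).comap p =
        W.subgroupOf (Subgroup.normalizer (Q : Set G)) := by
    apply Subgroup.comap_map_eq_self
    rw [hk]
    intro x hx
    exact hQW hx
  rw [up, hcm, Subgroup.subgroupOf_map_subtype, inf_eq_left.2 hW]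

theorem isPGroup_up {ℓ : ℕ} [Fact ℓ.Prime] (hp : Function.Surjective p) (hkp : IsPGroup ℓ p.ker)
    (T : Subgroup A) : IsPGroup ℓ (up p T) ↔ IsPGroup ℓ T := by
  rw [← PP.H75.isPGroup_comap_iff hp hkp T]
  constructor
  · intro h
    have h1 : IsPGroup ℓ ((up p T).subgroupOf (Subgroup.normalizer (Q : Set G))) :=
      h.comap_of_injective _ (Subgroup.subtype_injective _)
    rwa [up_subgroupOf] at h1
  · intro h
    exact h.map _

open Classical in
/-- the preimage of a chain -/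
def lift (p : Subgroup.normalizer (Q : Set G) →* A) (d : Finset (Subgroup A)) :
    Finset (Subgroup G) := insert ⊥ (d.image (up p))

theorem mem_lift {d : Finset (Subgroup A)} {D : Subgroup G} :
    D ∈ lift p d ↔ D = ⊥ ∨ ∃ T ∈ d, up p T = D := by
  classical
  rw [lift, Finset.mem_insert, Finset.mem_image]

theorem bot_notMem (hQ : Q ≠ ⊥) (hk : p.ker = Q.subgroupOf (Subgroup.normalizer (Q : Set G)))
    (d : Finset (Subgroup A)) : ¬ ∃ T ∈ d, up p T = ⊥ := by
  rintro ⟨T, _, h⟩
  exact hQ (le_bot_iff.1 (h ▸ le_up hk T))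

theorem card_lift (hQ : Q ≠ ⊥) (hp : Function.Surjective p)
    (hk : p.ker = Q.subgroupOf (Subgroup.normalizer (Q : Set G))) (d : Finset (Subgroup A)) :
    (lift p d).card = d.card + 1 := by
  classical
  rw [lift, Finset.card_insert_of_notMem, Finset.card_image_of_injective _ (up_inj hp)]
  rw [Finset.mem_image]
  exact bot_notMem hQ hk d

theorem lift_inj (hQ : Q ≠ ⊥) (hp : Function.Surjective p)
    (hk : p.ker = Q.subgroupOf (Subgroup.normalizer (Q : Set G))) {d d' : Finset (Subgroup A)}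
    (h : lift p d = lift p d') : d = d' := by
  have key : ∀ {d d' : Finset (Subgroup A)}, lift p d = lift p d' → d ⊆ d' := by
    intro d d' h T hT
    have h1 : up p T ∈ lift p d' := by
      rw [← h]
      exact mem_lift.2 (Or.inr ⟨T, hT, rfl⟩)
    rcases mem_lift.1 h1 with h2 | ⟨T', hT', h2⟩
    · exact absurd ⟨T, hT, h2⟩ (bot_notMem hQ hk d)
    · rwa [← up_inj hp h2]
  exact Finset.Subset.antisymm (key h) (key h.symm)

theorem stab_lift (hp : Function.Surjective p)
    (hk : p.ker = Q.subgroupOf (Subgroup.normalizer (Q : Set G))) {d : Finset (Subgroup A)}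
    (hd : ⊥ ∈ d) : stab (lift p d) = up p (stab d) := by
  ext x
  rw [mem_stab', mem_up]
  constructor
  · intro h
    have hx : x ∈ Subgroup.normalizer (Q : Set G) := by
      have := h (up p ⊥) (mem_lift.2 (Or.inr ⟨⊥, hd, rfl⟩))
      rwa [up_bot hk] at this
    refine ⟨hx, ?_⟩
    rw [mem_stab']
    intro T hT
    have h1 : x ∈ up p (Subgroup.normalizer (T : Set A)) := by
      rw [up_norm hp]
      exact ⟨hx, h _ (mem_lift.2 (Or.inr ⟨T, hT, rfl⟩))⟩
    exact (mem_up.1 h1).2
  · rintro ⟨hx, h⟩ D hD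
    rw [mem_stab'] at h
    rcases mem_lift.1 hD with rfl | ⟨T, hT, rfl⟩
    · rw [Subgroup.mem_normalizer_iff]
      intro y
      rw [Subgroup.mem_bot, Subgroup.mem_bot]
      constructor
      · rintro rfl
        group
      · intro h1
        have h2 : x * y = x := by rw [← mul_inv_eq_one, h1]
        exact mul_eq_left.1 h2
    · have h1 : x ∈ up p (Subgroup.normalizer (T : Set A)) := mem_up.2 ⟨hx, h T hT⟩
      rw [up_norm hp] at h1
      exact h1.2

theorem top_lift {d : Finset (Subgroup A)} (hd : IsChain (· ≤ ·) (d : Set (Subgroup A)))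
    (hb : ⊥ ∈ d) : top (lift p d) = up p (top d) := by
  obtain ⟨h1, h2⟩ := top_mem hd ⟨_, hb⟩
  refine le_antisymm (sSup_le fun D hD => ?_) (le_sSup (mem_lift.2 (Or.inr ⟨_, h1, rfl⟩)))
  rcases mem_lift.1 hD with rfl | ⟨T, hT, rfl⟩
  · exact bot_le
  · exact up_mono p (h2 T hT)

theorem chain_lift (hp : Function.Surjective p) {d : Finset (Subgroup A)} :
    IsChain (· ≤ ·) (lift p d : Set (Subgroup G)) ↔ IsChain (· ≤ ·) (d : Set (Subgroup A)) := by
  constructor
  · intro h S hS T hT hne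
    have h1 := h (mem_lift.2 (Or.inr ⟨S, hS, rfl⟩)) (mem_lift.2 (Or.inr ⟨T, hT, rfl⟩))
      (fun h' => hne (up_inj hp h'))
    exact h1.imp (up_le_iff hp).1 (up_le_iff hp).1
  · intro h S hS T hT _
    rcases mem_lift.1 hS with rfl | ⟨S', hS', rfl⟩
    · exact Or.inl bot_le
    rcases mem_lift.1 hT with rfl | ⟨T', hT', rfl⟩
    · exact Or.inr bot_le
    exact (chain_total h hS' hT').imp (up_mono p) (up_mono p)

theorem norm_lift (hp : Function.Surjective p) {d : Finset (Subgroup A)}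
    (hd : IsChain (· ≤ ·) (d : Set (Subgroup A))) (hb : ⊥ ∈ d) :
    NormalChain (lift p d) ↔ NormalChain d := by
  unfold NormalChain
  rw [top_lift hd hb]
  constructor
  · intro h T hT
    rw [← up_le_iff hp, up_norm hp]
    exact le_inf (up_le _ _) (h _ (mem_lift.2 (Or.inr ⟨T, hT, rfl⟩)))
  · intro h D hD
    rcases mem_lift.1 hD with rfl | ⟨T, hT, rfl⟩
    · intro x _
      rw [Subgroup.mem_normalizer_iff]
      intro y
      rw [Subgroup.mem_bot, Subgroup.mem_bot]
      constructor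
      · rintro rfl
        group
      · intro h1
        have h2 : x * y = x := by rw [← mul_inv_eq_one, h1]
        exact mul_eq_left.1 h2
    · have h1 := up_mono p (h T hT)
      rw [up_norm hp] at h1
      exact h1.trans inf_le_right

end up

section second

variable {G : Type} [Group G]

/-- `Q` is the smallest nontrivial member of `d`. -/
def Sec (d : Finset (Subgroup G)) (Q : Subgroup G) : Prop :=
  Q ∈ d ∧ Q ≠ ⊥ ∧ ∀ D ∈ d, D ≠ ⊥ → Q ≤ D

theorem Sec.unique {d : Finset (Subgroup G)} {Q R : Subgroup G} (h : Sec d Q) (h' : Sec d R) :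
    Q = R := le_antisymm (h.2.2 R h'.1 h'.2.1) (h'.2.2 Q h.1 h.2.1)

theorem exists_sec {d : Finset (Subgroup G)} (hd : IsChain (· ≤ ·) (d : Set (Subgroup G)))
    (hb : ⊥ ∈ d) (hne : d ≠ {⊥}) : ∃ Q, Sec d Q := by
  classical
  have h1 : (d.erase ⊥).Nonempty := by
    by_contra h
    rw [Finset.not_nonempty_iff_eq_empty] at h
    apply hne
    rw [← Finset.insert_erase hb, h]
    rfl
  obtain ⟨Q, hQ, hmin⟩ := exists_least (d := d.erase ⊥)
    (hd.mono (fun y hy => Finset.mem_of_mem_erase hy)) h1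
  rw [Finset.mem_erase] at hQ
  exact ⟨Q, hQ.2, hQ.1, fun D hD h => hmin D (Finset.mem_erase.2 ⟨h, hD⟩)⟩

end second

section main

variable {F : Type} [Field F] {G A : Type} [Group G] [Finite G] [Group A] [Finite A]

open Classical in
theorem inner {ℓ : ℕ} [Fact ℓ.Prime] (hF : GoodF ℓ F) {e : G → F} (he : IsIdem e)
    {Q : Subgroup G} (hQp : IsPGroup ℓ Q) (hQ : Q ≠ ⊥)
    {p : Subgroup.normalizer (Q : Set G) →* A} (hp : Function.Surjective p)
    (hk : p.ker = Q.subgroupOf (Subgroup.normalizer (Q : Set G))) :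
    ∑ d ∈ ((chainsOn (psubIn ℓ (⊤ : Subgroup G)) ⊥).filter NormalChain).filter (fun d => Sec d Q),
      (-1) ^ (d.card + 1) * ((Nat.card (stab d) : ℤ) * (lnum (stab d) e : ℤ)) =
    - ((Nat.card Q : ℤ) * YY ℓ (⊤ : Subgroup A)
      (push p (fun t : Subgroup.normalizer (Q : Set G) => br Q e t))) := by
  have hkc : Nat.card p.ker = Nat.card Q := by
    rw [hk]
    exact Nat.card_congr (Subgroup.subgroupOfEquivOfLe Subgroup.le_normalizer).toEquiv
  have hkp : IsPGroup ℓ p.ker := by
    obtain ⟨k, hk'⟩ := IsPGroup.iff_card.1 hQp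
    exact IsPGroup.of_card (hkc.trans hk')
  obtain ⟨f', hf'⟩ : ∃ f' : A → F,
      f' = push p (fun t : Subgroup.normalizer (Q : Set G) => br Q e t) := ⟨_, rfl⟩
  rw [← hf']
  unfold YY
  rw [nch ℓ A ⊤ (fun S _ => (Nat.card S : ℤ) * (lnum S f' : ℤ)), Finset.mul_sum,
    ← Finset.sum_neg_distrib]
  symm
  refine Finset.sum_bij (fun d _ => lift p d) ?_ ?_ ?_ ?_
  · intro d hd
    obtain ⟨h1, h2⟩ := Finset.mem_filter.1 hd
    obtain ⟨h3, h4, h5⟩ := mem_chainsOn.1 h1
    refine Finset.mem_filter.2 ⟨Finset.mem_filter.2 ⟨mem_chainsOn.2 ⟨?_, ?_, ?_⟩, ?_⟩, ?_⟩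
    · intro D hD
      refine mem_psubIn.2 ⟨le_top, ?_⟩
      rcases mem_lift.1 hD with rfl | ⟨T, hT, rfl⟩
      · exact IsPGroup.of_bot
      · exact (isPGroup_up hp hkp T).2 (mem_psubIn.1 (h3 hT)).2
    · exact mem_lift.2 (Or.inl rfl)
    · exact (chain_lift hp).2 h5
    · exact (norm_lift hp h5 h4).2 h2
    · refine ⟨mem_lift.2 (Or.inr ⟨⊥, h4, up_bot hk⟩), hQ, ?_⟩
      intro D hD hne
      rcases mem_lift.1 hD with rfl | ⟨T, hT, rfl⟩
      · exact absurd rfl hne
      · exact le_up hk T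
  · intro d _ d' _ h
    exact lift_inj hQ hp hk h
  · intro d hd
    obtain ⟨h0, hsec⟩ := Finset.mem_filter.1 hd
    obtain ⟨h1, h2⟩ := Finset.mem_filter.1 h0
    obtain ⟨h3, h4, h5⟩ := mem_chainsOn.1 h1
    have htop := (top_mem h5 ⟨_, h4⟩).2
    have hN : ∀ D ∈ d, D ≤ Subgroup.normalizer (Q : Set G) := fun D hD =>
      (htop D hD).trans (h2 Q hsec.1)
    obtain ⟨d', hd'⟩ : ∃ d' : Finset (Subgroup A), d' = (d.erase ⊥).image
        (fun W => (W.subgroupOf (Subgroup.normalizer (Q : Set G))).map p) := ⟨_, rfl⟩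
    have hmem : ∀ T : Subgroup A, T ∈ d' ↔ up p T ∈ d := by
      intro T
      rw [hd', Finset.mem_image]
      constructor
      · rintro ⟨W, hW, rfl⟩
        rw [Finset.mem_erase] at hW
        rw [up_down hp hk (hsec.2.2 W hW.2 hW.1) (hN W hW.2)]
        exact hW.2
      · intro h
        refine ⟨up p T, Finset.mem_erase.2 ⟨?_, h⟩, ?_⟩
        · intro h'
          exact hQ (le_bot_iff.1 (h' ▸ le_up hk T))
        · rw [up_subgroupOf, Subgroup.map_comap_eq_self_of_surjective hp]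
    have hl : lift p d' = d := by
      ext D
      rw [mem_lift]
      constructor
      · rintro (rfl | ⟨T, hT, rfl⟩)
        · exact h4
        · exact (hmem T).1 hT
      · intro hD
        by_cases hb : D = ⊥
        · exact Or.inl hb
        · refine Or.inr ⟨(D.subgroupOf (Subgroup.normalizer (Q : Set G))).map p, ?_,
            up_down hp hk (hsec.2.2 D hD hb) (hN D hD)⟩
          rw [hmem, up_down hp hk (hsec.2.2 D hD hb) (hN D hD)]
          exact hD
    have hb : ⊥ ∈ d' := by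
      rw [hmem, up_bot hk]
      exact hsec.1
    have hc : IsChain (· ≤ ·) (d' : Set (Subgroup A)) := by
      rw [← chain_lift hp, hl]
      exact h5
    refine ⟨d', Finset.mem_filter.2 ⟨mem_chainsOn.2 ⟨?_, hb, hc⟩, ?_⟩, hl⟩
    · intro T hT
      refine mem_psubIn.2 ⟨le_top, ?_⟩
      exact (isPGroup_up hp hkp T).1 (mem_psubIn.1 (h3 ((hmem T).1 hT))).2
    · rw [← norm_lift hp hc hb, hl]
      exact h2
  · intro d hd
    obtain ⟨h1, h2⟩ := Finset.mem_filter.1 hd
    obtain ⟨h3, h4, h5⟩ := mem_chainsOn.1 h1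
    have e1 := stab_lift hp hk h4
    have e2 : lnum (stab (lift p d)) e = lnum (stab d) f' := by
      rw [(H75.lbr ℓ F hF G e he Q (stab (lift p d)) hQp (e1 ▸ le_up hk _)
        (e1 ▸ up_le p _)).1, e1, lnum_up hF hp hkp, hf']
    have e3 : Nat.card (stab (lift p d)) = Nat.card Q * Nat.card (stab d) := by
      rw [e1, card_up hp, hkc]
    rw [e2, e3, card_lift hQ hp hk]
    push_cast
    ring

end main

/-- REC -/
theorem rec_ : RecStmt := by
  classical
  intro ℓ hℓ F _ hF G _ _ e he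
  have hfinG : Fintype (Subgroup G) := Fintype.ofFinite _
  have hYY : YY ℓ ⊤ e = ∑ d ∈ (chainsOn (psubIn ℓ (⊤ : Subgroup G)) ⊥).filter NormalChain,
      (-1) ^ (d.card + 1) * ((Nat.card (stab d) : ℤ) * (lnum (stab d) e : ℤ)) := by
    unfold YY
    exact nch ℓ G ⊤ (fun S _ => (Nat.card S : ℤ) * (lnum S e : ℤ))
  have hst : stab ({⊥} : Finset (Subgroup G)) = ⊤ := by
    rw [eq_top_iff]
    intro x _
    rw [mem_stab']
    intro D hD
    rw [Finset.mem_singleton.1 hD, Subgroup.mem_normalizer_iff]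
    intro y
    rw [Subgroup.mem_bot, Subgroup.mem_bot]
    constructor
    · rintro rfl
      group
    · intro h1
      have h2 : x * y = x := by rw [← mul_inv_eq_one, h1]
      exact mul_eq_left.1 h2
  have hbot : ({⊥} : Finset (Subgroup G)) ∈
      (chainsOn (psubIn ℓ (⊤ : Subgroup G)) ⊥).filter NormalChain := by
    refine Finset.mem_filter.2 ⟨mem_chainsOn.2 ⟨?_, Finset.mem_singleton_self _, ?_⟩, ?_⟩
    · intro D hD
      rw [Finset.mem_singleton.1 hD]
      exact mem_psubIn.2 ⟨le_top, IsPGroup.of_bot⟩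
    · rw [Finset.coe_singleton]
      exact Set.subsingleton_singleton.isChain
    · intro D hD
      have h1 : (⊤ : Subgroup G) ≤ Subgroup.normalizer (D : Set G) := by
        rw [← hst]
        intro x hx
        exact mem_stab'.1 hx D hD
      exact le_top.trans h1
  have hR : ∑ᶠ (Q : Subgroup G) (_ : IsPGroup ℓ Q ∧ Q ≠ ⊥), (Nat.card Q : ℤ) * YQ ℓ e Q =
      ∑ Q : Subgroup G, if IsPGroup ℓ Q ∧ Q ≠ ⊥ then (Nat.card Q : ℤ) * YQ ℓ e Q else 0 := by
    rw [finsum_eq_sum_of_fintype]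
    exact Finset.sum_congr rfl fun Q _ => finsum_eq_if
  rw [hYY, ← Finset.add_sum_erase _ _ hbot, hR, hst, Finset.card_singleton, sub_eq_add_neg,
    Subgroup.card_top, ← Finset.sum_neg_distrib]
  have e1 : ((-1 : ℤ)) ^ (1 + 1) = 1 := by norm_num
  rw [e1, one_mul]
  refine congrArg (fun t : ℤ => (Nat.card G : ℤ) * (lnum (⊤ : Subgroup G) e : ℤ) + t) ?_
  have e2 : ∀ d ∈ ((chainsOn (psubIn ℓ (⊤ : Subgroup G)) ⊥).filter NormalChain).erase {⊥},
      (-1) ^ (d.card + 1) * ((Nat.card (stab d) : ℤ) * (lnum (stab d) e : ℤ)) =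
      ∑ Q : Subgroup G, if Sec d Q then
        (-1) ^ (d.card + 1) * ((Nat.card (stab d) : ℤ) * (lnum (stab d) e : ℤ)) else 0 := by
    intro d hd
    rw [Finset.mem_erase, Finset.mem_filter, mem_chainsOn] at hd
    obtain ⟨Q, hQ⟩ := exists_sec hd.2.1.2.2 hd.2.1.2.1 hd.1
    rw [Finset.sum_eq_single Q]
    · rw [if_pos hQ]
    · intro R _ hR
      rw [if_neg]
      intro h
      exact hR (h.unique hQ)
    · intro h
      exact absurd (Finset.mem_univ Q) h
  rw [Finset.sum_congr rfl e2, Finset.sum_comm]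
  refine Finset.sum_congr rfl fun Q _ => ?_
  rw [← Finset.sum_filter]
  by_cases hQ : IsPGroup ℓ Q ∧ Q ≠ ⊥
  · rw [if_pos hQ]
    have h1 := inner hF he hQ.1 hQ.2 (QuotientGroup.mk'_surjective
      (Q.subgroupOf (Subgroup.normalizer (Q : Set G)))) (QuotientGroup.ker_mk' _)
    rw [YQ, ← h1]
    refine Finset.sum_congr ?_ fun _ _ => rfl
    ext d
    rw [Finset.mem_filter, Finset.mem_filter, Finset.mem_erase]
    constructor
    · rintro ⟨⟨_, h2⟩, h3⟩
      exact ⟨h2, h3⟩
    · rintro ⟨h2, h3⟩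
      refine ⟨⟨?_, h2⟩, h3⟩
      rintro rfl
      exact h3.2.1 (Finset.mem_singleton.1 h3.1)
  · rw [if_neg hQ, neg_zero]
    refine Finset.sum_eq_zero fun d hd => ?_
    exfalso
    rw [Finset.mem_filter, Finset.mem_erase, Finset.mem_filter, mem_chainsOn] at hd
    exact hQ ⟨(mem_psubIn.1 (hd.1.2.1.1 hd.2.1)).2, hd.2.2.1⟩

end Pool.Agent.PP.T3.H28
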